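import Mathlib
import Pool.Agent.Y166.SM.Stm

/-!
# The ratio of minors to products of Plücker coordinates is constant
-/

set_option autoImplicit false

namespace Pool.Agent.Y405.SM

open Polynomial Pool.Agent.Y166.SM

section
variable {k : Type} [Field k]

/-- The polynomial with values `Lt`. -/
noncomputable def LP (l : S3 × Fin 4 → k) (a : S3) : k[X] :=
  ∑ p : Fin 4, C (l (a, p)) * X ^ (p : ℕ)

/-- The polynomial entries of the curve of matrices. -/
noncomputable def mp (M0 M1 M2 : Matrix (Fin 6) (Fin 6) k) : Matrix (Fin 6) (Fin 6) k[X] :=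
  Matrix.of fun i j => C (M0 i j) + C (M1 i j) * X + C (M2 i j) * X ^ 2

/-- The minors as polynomials. -/
noncomputable def NP (M0 M1 M2 : Matrix (Fin 6) (Fin 6) k) (a b : S3) : k[X] :=
  ((mp M0 M1 M2).submatrix a b).det

theorem eval_LP (l : S3 × Fin 4 → k) (t : k) (a : S3) : (LP l a).eval t = Lt l t a := by
  simp [LP, Lt, eval_finsetSum]

theorem eval_NP (M0 M1 M2 : Matrix (Fin 6) (Fin 6) k) (t : k) (a b : S3) :
    (NP M0 M1 M2 a b).eval t = ((Mt M0 M1 M2 t).submatrix a b).det := by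
  rw [NP, Matrix.det_fin_three, Matrix.det_fin_three]
  simp [mp, Mt]
  ring

theorem natDegree_mp (M0 M1 M2 : Matrix (Fin 6) (Fin 6) k) (i j : Fin 6) :
    (mp M0 M1 M2 i j).natDegree ≤ 2 := by
  simp only [mp, Matrix.of_apply]
  compute_degree

theorem coeff_mp (M0 M1 M2 : Matrix (Fin 6) (Fin 6) k) (i j : Fin 6) :
    (mp M0 M1 M2 i j).coeff 2 = M2 i j := by
  simp only [mp, Matrix.of_apply]
  compute_degree!

theorem nd3 {p q r : k[X]} (hp : p.natDegree ≤ 2) (hq : q.natDegree ≤ 2) (hr : r.natDegree ≤ 2) :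
    (p * q * r).natDegree ≤ 6 :=
  (natDegree_mul_le_of_le (natDegree_mul_le_of_le hp hq) hr)

theorem cf3 {p q r : k[X]} (hp : p.natDegree ≤ 2) (hq : q.natDegree ≤ 2) (hr : r.natDegree ≤ 2) :
    (p * q * r).coeff 6 = p.coeff 2 * q.coeff 2 * r.coeff 2 := by
  have h1 := coeff_mul_add_eq_of_natDegree_le (natDegree_mul_le_of_le hp hq) hr
  have h2 := coeff_mul_add_eq_of_natDegree_le hp hq
  rw [h2] at h1
  exact h1

theorem natDegree_NP (M0 M1 M2 : Matrix (Fin 6) (Fin 6) k) (a b : S3) :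
    (NP M0 M1 M2 a b).natDegree ≤ 6 := by
  rw [NP, Matrix.det_fin_three]
  have h := natDegree_mp M0 M1 M2
  simp only [Matrix.submatrix_apply]
  have e : ∀ x y z w v u : k[X], x.natDegree ≤ 6 → y.natDegree ≤ 6 → z.natDegree ≤ 6 →
      w.natDegree ≤ 6 → v.natDegree ≤ 6 → u.natDegree ≤ 6 →
      (x - y - z + w + v - u).natDegree ≤ 6 := by
    intro x y z w v u hx hy hz hw hv hu
    exact (natDegree_sub_le _ _).trans (max_le ((natDegree_add_le _ _).trans (max_le
      ((natDegree_add_le _ _).trans (max_le ((natDegree_sub_le _ _).trans (max_le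
        ((natDegree_sub_le _ _).trans (max_le hx hy)) hz)) hw)) hv)) hu)
  refine e _ _ _ _ _ _ ?_ ?_ ?_ ?_ ?_ ?_
  all_goals exact nd3 (h _ _) (h _ _) (h _ _)

theorem coeff_NP (M0 M1 M2 : Matrix (Fin 6) (Fin 6) k) (a b : S3) :
    (NP M0 M1 M2 a b).coeff 6 = (M2.submatrix a b).det := by
  rw [NP, Matrix.det_fin_three, Matrix.det_fin_three]
  have h := natDegree_mp M0 M1 M2
  simp only [Matrix.submatrix_apply, coeff_add, coeff_sub]
  rw [cf3 (h _ _) (h _ _) (h _ _), cf3 (h _ _) (h _ _) (h _ _), cf3 (h _ _) (h _ _) (h _ _),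
    cf3 (h _ _) (h _ _) (h _ _), cf3 (h _ _) (h _ _) (h _ _), cf3 (h _ _) (h _ _) (h _ _)]
  simp only [coeff_mp]

theorem natDegree_LP (l : S3 × Fin 4 → k) (a : S3) : (LP l a).natDegree ≤ 3 := by
  refine natDegree_sum_le_of_forall_le _ _ fun p _ => ?_
  refine (natDegree_C_mul_X_pow_le _ _).trans ?_
  have := p.2
  omega

theorem coeff_LP (l : S3 × Fin 4 → k) (a : S3) : (LP l a).coeff 3 = l (a, 3) := by
  simp [LP, Fin.sum_univ_four]

theorem det_sub (Cm : Matrix (Fin 6) (Fin 3) k) (Q : Matrix (Fin 3) (Fin 3) k) (a b : S3) :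
    ((Cm * Q * Cm.transpose).submatrix a b).det =
      Q.det * (Cm.submatrix a id).det * (Cm.submatrix b id).det := by
  have h : (Cm * Q * Cm.transpose).submatrix a b =
      Cm.submatrix a id * Q * (Cm.submatrix b id).transpose := by
    ext i j
    simp [Matrix.mul_apply]
  rw [h, Matrix.det_mul, Matrix.det_mul, Matrix.det_transpose]
  ring

/-- Polynomials without a common root: a combination of their squares is `1`. -/
theorem unit_squares [IsAlgClosed k] (L : S3 → k[X]) (h : ∀ t : k, ∃ a, (L a).eval t ≠ 0) :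
    ∃ u : S3 → k[X], ∑ b, u b * L b ^ 2 = 1 := by
  rw [← Ideal.mem_span_range_iff_exists_fun]
  obtain ⟨g, hg⟩ := (IsPrincipalIdealRing.principal
    (Ideal.span (Set.range fun b => L b ^ 2))).principal
  have hg' : Ideal.span (Set.range fun b => L b ^ 2) = Ideal.span {g} := hg
  have hdvd : ∀ b, g ∣ L b ^ 2 := fun b => by
    rw [← Ideal.mem_span_singleton, ← hg']
    exact Ideal.subset_span ⟨b, rfl⟩
  have hroot : ∀ t, g.eval t ≠ 0 := by
    intro t ht
    obtain ⟨a, ha⟩ := h t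
    obtain ⟨c, hc⟩ := hdvd a
    have : (L a ^ 2).eval t = 0 := by rw [hc, eval_mul, ht, zero_mul]
    rw [eval_pow] at this
    exact ha (pow_eq_zero_iff (two_ne_zero) |>.1 this)
  have hdeg : g.degree = 0 := by
    by_contra hne
    obtain ⟨t, ht⟩ := IsAlgClosed.exists_root g hne
    exact hroot t ht
  have hu : IsUnit g := isUnit_iff_degree_eq_zero.2 hdeg
  rw [hg', Ideal.span_singleton_eq_top.2 hu]
  trivial

end

theorem stmKappa : StmKappa := by
  intro k _ _ _ l M0 M1 M2 hc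
  have key : ∀ t : k, ∃ δ : k, ∀ a b : S3,
      ((Mt M0 M1 M2 t).submatrix a b).det = δ * Lt l t a * Lt l t b := by
    intro t
    obtain ⟨Cm, Q, -, h1, -, h3⟩ := hc.fin t
    refine ⟨Q.det, fun a b => ?_⟩
    rw [h3, det_sub, h1, h1]
  obtain ⟨C2, Q2, -, i1, ⟨a0, ha0⟩, i3⟩ := hc.inf
  have kinf : ∀ a b : S3, (M2.submatrix a b).det = Q2.det * l (a, 3) * l (b, 3) := by
    intro a b
    rw [i3, det_sub, i1, i1]
  have hl0 : l (a0, 3) ≠ 0 := by rw [i1]; exact ha0
  have hno : ∀ t : k, ∃ a, (LP l a).eval t ≠ 0 := by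
    intro t
    obtain ⟨Cm, Q, -, h1, ⟨a, ha⟩, -⟩ := hc.fin t
    exact ⟨a, by rw [eval_LP, h1]; exact ha⟩
  have id1 : ∀ a b c : S3, NP M0 M1 M2 a b * LP l c ^ 2 =
      NP M0 M1 M2 c c * (LP l a * LP l b) := by
    intro a b c
    refine Polynomial.funext fun t => ?_
    obtain ⟨δ, hδ⟩ := key t
    simp only [eval_mul, eval_pow, eval_NP, eval_LP, hδ]
    ring
  obtain ⟨u, hu⟩ := unit_squares (LP l) hno
  have hL0 : LP l a0 ≠ 0 := by
    intro h
    have := coeff_LP l a0
    rw [h, coeff_zero] at this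
    exact hl0 this.symm
  have hLdeg : (LP l a0).natDegree = 3 :=
    natDegree_eq_of_le_of_coeff_ne_zero (natDegree_LP l a0) (by rw [coeff_LP]; exact hl0)
  set q : k[X] := ∑ b, u b * NP M0 M1 M2 b b with hq
  have hN : NP M0 M1 M2 a0 a0 = LP l a0 ^ 2 * q := by
    calc NP M0 M1 M2 a0 a0 = NP M0 M1 M2 a0 a0 * ∑ b, u b * LP l b ^ 2 := by rw [hu, mul_one]
      _ = ∑ b, u b * (NP M0 M1 M2 a0 a0 * LP l b ^ 2) := by
          rw [Finset.mul_sum]
          exact Finset.sum_congr rfl fun b _ => by ring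
      _ = ∑ b, u b * (NP M0 M1 M2 b b * (LP l a0 * LP l a0)) :=
          Finset.sum_congr rfl fun b _ => by rw [id1 a0 a0 b]
      _ = LP l a0 ^ 2 * q := by
          rw [hq, Finset.mul_sum]
          exact Finset.sum_congr rfl fun b _ => by ring
  have hqc : q = C (q.coeff 0) := by
    by_cases hq0 : q = 0
    · rw [hq0]; simp
    · refine eq_C_of_natDegree_eq_zero ?_
      have h6 := natDegree_NP M0 M1 M2 a0 a0
      rw [hN, natDegree_mul (pow_ne_zero 2 hL0) hq0, natDegree_pow, hLdeg] at h6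
      omega
  set κ : k := q.coeff 0 with hκ
  have hNab : ∀ a b, NP M0 M1 M2 a b = C κ * LP l a * LP l b := by
    intro a b
    have h := id1 a b a0
    rw [hN, hqc] at h
    refine mul_right_cancel₀ (pow_ne_zero 2 hL0) ?_
    rw [h]
    ring
  refine ⟨κ, fun t a b => ?_, fun a b => ?_⟩
  · rw [← eval_NP, hNab, eval_mul, eval_mul, eval_C, eval_LP, eval_LP]
  · have h6 : (NP M0 M1 M2 a b).coeff 6 = κ * l (a, 3) * l (b, 3) := by
      rw [hNab, mul_assoc, coeff_C_mul]
      have := coeff_mul_add_eq_of_natDegree_le (natDegree_LP l a) (natDegree_LP l b)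
      rw [coeff_LP, coeff_LP] at this
      rw [mul_assoc]
      exact congrArg (κ * ·) this
    rw [← h6, coeff_NP]

end Pool.Agent.Y405.SM
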